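import Pool.Agent.R623.WInter

/-!
Chains of order type `ω + ω*` in the Weihrauch degrees always have an intermediate degree.

`Problem` is the type of multi-valued functions on Baire space (`sol x` is the set of solutions of
the instance `x`, the domain consists of the instances having a solution), preordered by Weihrauch
reducibility; the functionals are the ones induced by computable monotone word functions.
`Degree` is the associated partial order of Weihrauch degrees.

Idea. Let `f n ≤ h m` for all `n, m` be witnessed by functionals with the codes `a n m` (forward)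
and `b n m` (backward). An instance of `g` is an instance `x` of some `f n`, together with `n` and the
finite table `a n 0, ..., a n n`; a solution is a solution of the instance of some `h m` which the
forward functional `a n m` attaches to `x`, together with `m` and the finite table
`b 0 m, ..., b m m`. In the reductions `f n ≤ g` and `g ≤ h m` all but finitely many of the codes
needed are in the tables, and the others are built into the functionals.
-/

set_option autoImplicit false

namespace Pool.Agent.Results.MP_2d238a_lc.IntermediateDegree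

open Pool.Agent.H190R3.Wei

/-- The Weihrauch degrees: the partial order associated with Weihrauch reducibility. -/
abbrev Degree := Antisymmetrization Problem (· ≤ ·)

theorem degree_interpolation (f h : ℕ → Degree) (H : ∀ n m, f n ≤ h m) :
    ∃ g : Degree, (∀ n, f n ≤ g) ∧ ∀ m, g ≤ h m := by
  obtain ⟨g, h1, h2⟩ := Pool.Agent.R623.WU.interpolation
    (fun n => ofAntisymmetrization (· ≤ ·) (f n)) (fun m => ofAntisymmetrization (· ≤ ·) (h m))
    (fun n m => by
      rw [ofAntisymmetrization_le_ofAntisymmetrization_iff]
      exact H n m)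
  refine ⟨toAntisymmetrization (· ≤ ·) g, fun n => ?_, fun m => ?_⟩
  · have h3 := h1 n
    rw [← toAntisymmetrization_le_toAntisymmetrization_iff,
      toAntisymmetrization_ofAntisymmetrization] at h3
    exact h3
  · have h3 := h2 m
    rw [← toAntisymmetrization_le_toAntisymmetrization_iff,
      toAntisymmetrization_ofAntisymmetrization] at h3
    exact h3

/-- a countable family of problems has an upper bound -/
theorem upper (f : ℕ → Problem) : ∃ g : Problem, ∀ n, f n ≤ g := by
  refine ⟨⟨fun p => {q | ∃ n x, p = tag n x ∧ q ∈ (f n).sol x}⟩, fun n => ?_⟩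
  refine ⟨fun σ => n :: σ, od, isMachine_cons _ isMachine_id, isMachine_od, ?_⟩
  intro x hx
  refine ⟨tag n x, maps_cons _ (maps_id x), ?_, ?_⟩
  · obtain ⟨z, hz⟩ := hx
    exact ⟨z, n, x, rfl, hz⟩
  · rintro z ⟨n', x', e, hz⟩
    have h1 : n = n' := by simpa [tag] using congrFun e 0
    have h2 : x = x' := by
      funext k
      simpa [tag] using congrFun e (k + 1)
    subst h1 h2
    exact ⟨z, hz, maps_od _ _⟩

theorem degree_upper (f : ℕ → Degree) : ∃ g : Degree, ∀ n, f n ≤ g := by
  obtain ⟨g, hg⟩ := upper (fun n => ofAntisymmetrization (· ≤ ·) (f n))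
  refine ⟨toAntisymmetrization (· ≤ ·) g, fun n => ?_⟩
  have h3 := hg n
  rw [← toAntisymmetrization_le_toAntisymmetrization_iff,
    toAntisymmetrization_ofAntisymmetrization] at h3
  exact h3

/-- the problem without instances is the least one -/
theorem degree_lower : ∃ g : Degree, ∀ d : Degree, g ≤ d := by
  refine ⟨toAntisymmetrization (· ≤ ·) ⟨fun _ => ∅⟩, fun d => ?_⟩
  rw [← toAntisymmetrization_ofAntisymmetrization (· ≤ ·) d,
    toAntisymmetrization_le_toAntisymmetrization_iff]
  exact ⟨fun σ => σ, fun σ => σ, isMachine_id, isMachine_id, fun x hx => absurd hx (by simp)⟩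

/-- **Negative answer to Q1**: every chain of order type `ω + ω*` of Weihrauch degrees has an
intermediate degree. More generally, if `A` and `B` are countable sets of Weihrauch degrees and
every element of `A` is below every element of `B`, then some degree lies between `A` and `B`. -/
theorem result :
    -- Weihrauch reducibility, spelled out
    (∀ f g : Problem, f ≤ g ↔ ∃ φ ψ : List ℕ → List ℕ, IsMachine φ ∧ IsMachine ψ ∧
      ∀ x, (f.sol x).Nonempty → ∃ y, Maps φ x y ∧ (g.sol y).Nonempty ∧
        ∀ z ∈ g.sol y, ∃ w ∈ f.sol x, Maps ψ (pair x z) w) ∧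
    -- no chain of order type `ω + ω*` is without intermediate degree
    (¬ ∃ f h : ℕ → Degree, (∀ n, f n < f (n + 1)) ∧ (∀ m, h (m + 1) < h m) ∧
      (∀ n m, f n < h m) ∧ ¬ ∃ g : Degree, ∀ n m, f n ≤ g ∧ g ≤ h m) ∧
    -- countable sets of degrees
    ∀ A B : Set Degree, A.Countable → B.Countable → (∀ a ∈ A, ∀ b ∈ B, a ≤ b) →
      ∃ g : Degree, (∀ a ∈ A, a ≤ g) ∧ ∀ b ∈ B, g ≤ b := by
  refine ⟨fun f g => Iff.rfl, ?_, ?_⟩
  · rintro ⟨f, h, -, -, h1, h2⟩
    obtain ⟨g, h3, h4⟩ := degree_interpolation f h (fun n m => (h1 n m).le)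
    exact h2 ⟨g, fun n m => ⟨h3 n, h4 m⟩⟩
  · intro A B hA hB hAB
    rcases A.eq_empty_or_nonempty with rfl | hA'
    · obtain ⟨g, hg⟩ := degree_lower
      exact ⟨g, by simp, fun b _ => hg b⟩
    obtain ⟨f, rfl⟩ := hA.exists_eq_range hA'
    rcases B.eq_empty_or_nonempty with rfl | hB'
    · obtain ⟨g, hg⟩ := degree_upper f
      exact ⟨g, by rintro _ ⟨n, rfl⟩; exact hg n, by simp⟩
    obtain ⟨h, rfl⟩ := hB.exists_eq_range hB'
    obtain ⟨g, h3, h4⟩ := degree_interpolation f h (fun n m => hAB _ ⟨n, rfl⟩ _ ⟨m, rfl⟩)
    exact ⟨g, by rintro _ ⟨n, rfl⟩; exact h3 n, by rintro _ ⟨m, rfl⟩; exact h4 m⟩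

end Pool.Agent.Results.MP_2d238a_lc.IntermediateDegree
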